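import Mathlib
import Pool.Agent.Lib_helper72.AS.LB5
import Pool.Agent.Lib_helper72.AS.SWMain2

set_option autoImplicit false

/-!
Rankin's size is the exact order of the least prime `p ≡ c (mod m)`, uniformly in `0 < |c| ≤ M`,
for moduli `m ≤ M` in the following sense.  Put
`W(M) = log M * log log M * log log log log M / (log log log M) ^ 2`.
For every `c` with `0 < |c| ≤ M`, at least a proportion `c₀ ε` of the moduli `m ≤ M` coprime to `c`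
have a prime `p ≡ c (mod m)` with `M < p ≤ ε m W(M)`; and there are `b = b(M)` with `b ^ A ≤ M` for
which at most a proportion `C ε` of the moduli coprime to `b` have a prime `p ≡ b (mod m)` with
`p ≤ ε m W(M)`.
-/

namespace Pool.Agent.Lib_helper72.Moved.ExactUniformOrder

open Pool.Agent.Lib_helper72.AS

theorem result :
    ∃ c₀ C : ℝ, 0 < c₀ ∧ 0 < C ∧ ∀ A : ℕ, ∃ b : ℕ → ℕ,
      (∀ M : ℕ, 1 ≤ M → 0 < b M ∧ b M ^ A ≤ M) ∧
      ∀ ε : ℝ, 0 < ε → ε ≤ 1 → ∃ M₀ : ℕ, ∀ M : ℕ, M₀ ≤ M →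
        (∀ c : ℤ, c ≠ 0 → |c| ≤ (M : ℤ) →
          c₀ * ε * ({m : ℕ | 1 ≤ m ∧ m ≤ M ∧ Int.gcd c m = 1}.ncard : ℝ) ≤
            ({m : ℕ | 1 ≤ m ∧ m ≤ M ∧ Int.gcd c m = 1 ∧ ∃ p : ℕ, p.Prime ∧ M < p ∧
              (p : ℤ) ≡ c [ZMOD (m : ℤ)] ∧
              (p : ℝ) ≤ ε * (m * (Real.log M * Real.log (Real.log M) *
                Real.log (Real.log (Real.log (Real.log M))) /
                  (Real.log (Real.log (Real.log M))) ^ 2))}.ncard : ℝ)) ∧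
        ({m : ℕ | 1 ≤ m ∧ m ≤ M ∧ Nat.Coprime (b M) m ∧ ∃ p : ℕ, p.Prime ∧ p ≡ b M [MOD m] ∧
          (p : ℝ) ≤ ε * (m * (Real.log M * Real.log (Real.log M) *
            Real.log (Real.log (Real.log (Real.log M))) /
              (Real.log (Real.log (Real.log M))) ^ 2))}.ncard : ℝ) ≤
          C * ε * ({m : ℕ | 1 ≤ m ∧ m ≤ M ∧ Nat.Coprime (b M) m}.ncard : ℝ) := by
  obtain ⟨c₀, hc₀, h1⟩ := partRkM
  obtain ⟨C, hC, h2⟩ := lowerBound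
  refine ⟨c₀, C, hc₀, hC, fun A => ?_⟩
  obtain ⟨b, hb, h3⟩ := h2 A
  refine ⟨b, hb, fun ε hε hε1 => ?_⟩
  obtain ⟨M₁, hM₁⟩ := h1 ε hε hε1
  obtain ⟨M₂, hM₂⟩ := h3 ε hε hε1
  exact ⟨max M₁ M₂, fun M hM => ⟨fun c hc hcM => hM₁ M ((le_max_left _ _).trans hM) c hc hcM,
    hM₂ M ((le_max_right _ _).trans hM)⟩⟩

end Pool.Agent.Lib_helper72.Moved.ExactUniformOrder
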